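import Mathlib

/-!
# Orbit lengths one, two and five

Let a finite group `G` act transitively on a finite set, and let `K` be a subgroup whose order is the
order of the point stabilizers. Then `K` cannot have exactly one orbit of length two, exactly one of
length five and only fixed points otherwise.
-/

namespace Pool.Agent.Q180.TP

open Set MulAction
open scoped Pointwise

variable {G Ω : Type*} [Group G] [MulAction G Ω]

/-- the orbit of `c` under the subgroup `L` -/
def orb (L : Subgroup G) (c : Ω) : Set Ω := {y | ∃ g ∈ L, g • c = y}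

lemma self_mem_orb (L : Subgroup G) (c : Ω) : c ∈ orb L c := ⟨1, L.one_mem, one_smul _ _⟩

lemma orb_mono {L M : Subgroup G} (h : L ≤ M) (c : Ω) : orb L c ⊆ orb M c := by
  rintro y ⟨g, hg, rfl⟩
  exact ⟨g, h hg, rfl⟩

lemma orb_eq_of_mem {L : Subgroup G} {c d : Ω} (h : d ∈ orb L c) : orb L d = orb L c := by
  obtain ⟨g, hg, rfl⟩ := h
  ext y
  constructor
  · rintro ⟨k, hk, rfl⟩
    exact ⟨k * g, L.mul_mem hk hg, mul_smul _ _ _⟩
  · rintro ⟨k, hk, rfl⟩
    exact ⟨k * g⁻¹, L.mul_mem hk (L.inv_mem hg), by rw [smul_smul, inv_mul_cancel_right]⟩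

lemma orb_ncard (L : Subgroup G) (c : Ω) : (orb L c).ncard = (stabilizer G c).relIndex L := by
  have h1 : orb L c = MulAction.orbit L c := by
    ext y
    constructor
    · rintro ⟨g, hg, rfl⟩
      exact ⟨⟨g, hg⟩, rfl⟩
    · rintro ⟨⟨g, hg⟩, rfl⟩
      exact ⟨g, hg, rfl⟩
  rw [h1, ← MulAction.index_stabilizer, Subgroup.relIndex]
  congr 1

lemma orb_one_iff [Finite Ω] {L : Subgroup G} {c : Ω} :
    (orb L c).ncard = 1 ↔ L ≤ stabilizer G c := by
  constructor
  · intro h g hg
    obtain ⟨x, hx⟩ := ncard_eq_one.1 h
    have h1 : c ∈ orb L c := self_mem_orb L c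
    have h2 : g • c ∈ orb L c := ⟨g, hg, rfl⟩
    rw [hx, mem_singleton_iff] at h1 h2
    rw [mem_stabilizer_iff, h2, ← h1]
  · intro h
    have : orb L c = {c} := by
      ext y
      constructor
      · rintro ⟨g, hg, rfl⟩
        exact h hg
      · rintro rfl
        exact self_mem_orb L _
    rw [this, ncard_singleton]

/-- a subgroup of index two of a group transitive on five points is transitive -/
lemma five [Finite G] [Finite Ω] {L : Subgroup G} {a c : Ω}
    (ha : (stabilizer G a).relIndex L = 2) (hc : (orb L c).ncard = 5) :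
    orb (L ⊓ stabilizer G a) c = orb L c := by
  set M := L ⊓ stabilizer G a with hM
  have hML : M ≤ L := inf_le_left
  have h1 := Subgroup.relIndex_mul_relIndex (M ⊓ stabilizer G c) M L inf_le_left hML
  have h2 := Subgroup.relIndex_mul_relIndex (M ⊓ stabilizer G c) (L ⊓ stabilizer G c) L
    (inf_le_inf_right _ hML) inf_le_left
  have h3 : M.relIndex L = 2 := by
    rw [hM, Subgroup.inf_relIndex_left]; exact ha
  have h4 : (L ⊓ stabilizer G c).relIndex L = 5 := by
    rw [Subgroup.inf_relIndex_left, ← orb_ncard]; exact hc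
  have h5 : (M ⊓ stabilizer G c).relIndex M = (orb M c).ncard := by
    rw [Subgroup.inf_relIndex_left, ← orb_ncard]
  rw [h3, h5] at h1
  rw [h4, ← h1] at h2
  have hsub := orb_mono hML c
  have hle : (orb M c).ncard ≤ 5 := by rw [← hc]; exact ncard_le_ncard hsub (Set.toFinite _)
  have hpos : 0 < (orb M c).ncard := (ncard_pos (Set.toFinite _)).2 ⟨c, self_mem_orb M c⟩
  apply eq_of_subset_of_ncard_le hsub _ (Set.toFinite _)
  omega

/-- points with `L`-orbit of length `i` -/
def Sz (i : ℕ) (L : Subgroup G) : Set Ω := {c | (orb L c).ncard = i}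

lemma orb_conj (g : G) (L : Subgroup G) (c : Ω) :
    orb (L.map (MulAut.conj g).toMonoidHom) (g • c) = g • orb L c := by
  ext y
  constructor
  · rintro ⟨k, ⟨l, hl, rfl⟩, rfl⟩
    refine ⟨l • c, ⟨l, hl, rfl⟩, ?_⟩
    change g • l • c = (g * l * g⁻¹) • g • c
    rw [smul_smul, smul_smul]
    congr 1
    group
  · rintro ⟨_, ⟨l, hl, rfl⟩, rfl⟩
    refine ⟨g * l * g⁻¹, ⟨l, hl, rfl⟩, ?_⟩
    change (g * l * g⁻¹) • g • c = g • l • c
    rw [smul_smul, smul_smul]
    congr 1
    group

lemma Sz_smul (i : ℕ) (g : G) (w : Ω) :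
    Sz i (stabilizer G (g • w)) = g • (Sz i (stabilizer G w) : Set Ω) := by
  rw [stabilizer_smul_eq_stabilizer_map_conj]
  ext y
  rw [mem_smul_set_iff_inv_smul_mem]
  have h1 : orb ((stabilizer G w).map (MulAut.conj g).toMonoidHom) y =
      g • orb (stabilizer G w) (g⁻¹ • y) := by
    rw [← orb_conj, smul_inv_smul]
  change (orb _ y).ncard = i ↔ (orb _ (g⁻¹ • y)).ncard = i
  rw [h1, ncard_smul_set]

lemma isBlock_of (R : Ω → Set Ω) (hR : ∀ (g : G) (w : Ω), R (g • w) = g • R w)
    (hR2 : ∀ w b, b ∈ R w → R b = R w) (w : Ω) : IsBlock G (R w) := by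
  rw [isBlock_iff_smul_eq_or_disjoint]
  intro g
  by_cases h : Disjoint (g • R w) (R w)
  · exact Or.inr h
  · left
    rw [not_disjoint_iff] at h
    obtain ⟨b, hb1, hb2⟩ := h
    rw [← hR] at hb1 ⊢
    rw [← hR2 _ b hb1, hR2 _ b hb2]

theorem no_two_five [Finite G] [Finite Ω] [IsPretransitive G Ω] (K : Subgroup G)
    (hK : ∀ w : Ω, Nat.card K = Nat.card (stabilizer G w))
    (h125 : ∀ c : Ω, (orb K c).ncard = 1 ∨ (orb K c).ncard = 2 ∨ (orb K c).ncard = 5)
    (h2 : (Sz 2 K : Set Ω).ncard = 2) (h5 : (Sz 5 K : Set Ω).ncard = 5) : False := by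
  classical
  -- the number of points
  have hcard : Nat.card Ω = (Sz 1 K : Set Ω).ncard + 7 := by
    have hu : (univ : Set Ω) = Sz 1 K ∪ (Sz 2 K ∪ Sz 5 K) := by
      ext c
      simpa [Sz] using h125 c
    rw [← ncard_univ, hu, ncard_union_eq _ (Set.toFinite _) (Set.toFinite _),
      ncard_union_eq _ (Set.toFinite _) (Set.toFinite _), h2, h5]
    · rw [disjoint_left]
      intro c hc hc'
      have h1 : (orb K c).ncard = 2 := hc
      have h1' : (orb K c).ncard = 5 := hc'
      omega
    · rw [disjoint_left]
      intro c hc hc'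
      have h1 : (orb K c).ncard = 1 := hc
      rcases hc' with hc' | hc'
      · have h1' : (orb K c).ncard = 2 := hc'
        omega
      · have h1' : (orb K c).ncard = 5 := hc'
        omega
  have eq_of_le : ∀ (w b : Ω), stabilizer G w ≤ stabilizer G b → stabilizer G w = stabilizer G b := by
    intro w b hle
    apply Subgroup.eq_of_le_of_card_ge hle
    rw [← hK w, ← hK b]
  -- the block of fixed points
  have hblock1 : ∀ w : Ω, IsBlock G (Sz 1 (stabilizer G w) : Set Ω) := by
    intro w
    apply isBlock_of (G := G) (fun w => Sz 1 (stabilizer G w)) (fun g w => Sz_smul 1 g w)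
    intro w b hb
    have hb' : (orb (stabilizer G w) b).ncard = 1 := hb
    rw [orb_one_iff] at hb'
    rw [eq_of_le w b hb']
  rcases Nat.eq_zero_or_pos (Sz 1 K : Set Ω).ncard with hk | hk
  · -- `K` has no fixed point
    rw [hk] at hcard
    have hS1 : (Sz 1 K : Set Ω) = ∅ := (ncard_eq_zero (Set.toFinite _)).1 hk
    obtain ⟨a, ha⟩ : (Sz 2 K : Set Ω).Nonempty := (ncard_pos (Set.toFinite _)).1 (by omega)
    obtain ⟨c5, hc5⟩ : (Sz 5 K : Set Ω).Nonempty := (ncard_pos (Set.toFinite _)).1 (by omega)
    have ha' : (orb K a).ncard = 2 := ha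
    -- the two points
    have horb : orb K a = Sz 2 K := by
      apply eq_of_subset_of_ncard_le _ _ (Set.toFinite _)
      · intro y hy
        change (orb K y).ncard = 2
        rw [orb_eq_of_mem hy, ha']
      · rw [h2, ha']
    obtain ⟨x, y, hxy, hab⟩ := ncard_eq_two.1 ha'
    obtain ⟨b, hba, hSab⟩ : ∃ b, a ≠ b ∧ orb K a = {a, b} := by
      have haa : a ∈ orb K a := self_mem_orb K a
      rw [hab] at haa
      rcases haa with h | h
      · subst h; exact ⟨y, hxy, hab⟩
      · rw [mem_singleton_iff] at h
        subst h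
        exact ⟨x, hxy.symm, by rw [hab, pair_comm]⟩
    set M := K ⊓ stabilizer G a with hM
    have hrel : (stabilizer G a).relIndex K = 2 := by rw [← orb_ncard, ha']
    have hMK : M.relIndex K = 2 := by rw [hM, Subgroup.inf_relIndex_left]; exact hrel
    have hML : M.relIndex (stabilizer G a) = 2 := by
      have e1 : Nat.card M * M.relIndex K = Nat.card K := by
        rw [← Subgroup.relIndex_bot_left M, Subgroup.relIndex_mul_relIndex ⊥ M K bot_le inf_le_left,
          Subgroup.relIndex_bot_left]
      have e2 : Nat.card M * M.relIndex (stabilizer G a) = Nat.card (stabilizer G a) := by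
        rw [← Subgroup.relIndex_bot_left M,
          Subgroup.relIndex_mul_relIndex ⊥ M (stabilizer G a) bot_le inf_le_right,
          Subgroup.relIndex_bot_left]
      rw [← hK a, ← e1, hMK] at e2
      exact Nat.eq_of_mul_eq_mul_left Nat.card_pos e2
    have hMb : M ≤ stabilizer G b := by
      intro g hg
      have hgK : g ∈ K := hg.1
      have hga : g • a = a := hg.2
      rw [mem_stabilizer_iff]
      have hb : b ∈ orb K a := by rw [hSab]; simp
      have h1 : g • b ∈ orb K a := by
        obtain ⟨k, hk, rfl⟩ := hb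
        exact ⟨g * k, K.mul_mem hgK hk, mul_smul _ _ _⟩
      rw [hSab] at h1
      rcases h1 with h1 | h1
      · exfalso
        apply hba
        rw [← hga] at h1
        exact (smul_left_cancel g h1).symm
      · exact h1
    have hb2 : (orb (stabilizer G a) b).ncard ≤ 2 := by
      rw [orb_ncard]
      have h1 : (stabilizer G a ⊓ stabilizer G b).relIndex (stabilizer G a) ∣
          M.relIndex (stabilizer G a) :=
        Subgroup.relIndex_dvd_of_le_left _ (le_inf inf_le_right hMb)
      rw [Subgroup.inf_relIndex_left, hML] at h1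
      exact Nat.le_of_dvd (by norm_num) h1
    have hM5 : ∀ c, c ∈ (Sz 5 K : Set Ω) → (orb M c).ncard = 5 := by
      intro c hc
      have hc' : (orb K c).ncard = 5 := hc
      rw [hM, five hrel hc', hc']
    have hnot : ∀ c, c ≠ a → c ≠ b → c ∈ (Sz 5 K : Set Ω) := by
      intro c hca hcb
      rcases h125 c with h | h | h
      · have : c ∈ (Sz 1 K : Set Ω) := h
        rw [hS1] at this
        exact this.elim
      · have : c ∈ (Sz 2 K : Set Ω) := h
        rw [← horb, hSab] at this
        rcases this with h' | h'
        · exact (hca h').elim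
        · exact (hcb h').elim
      · exact h
    have hMa : M ≤ stabilizer G a := inf_le_right
    have hfix : (Sz 1 (stabilizer G a) : Set Ω) = {a, b} := by
      ext c
      constructor
      · intro hc
        have hc' : (orb (stabilizer G a) c).ncard = 1 := hc
        by_contra hne
        simp only [mem_insert_iff, mem_singleton_iff, not_or] at hne
        have h6 := hM5 c (hnot c hne.1 hne.2)
        have h7 := ncard_le_ncard (orb_mono hMa c) (Set.toFinite _)
        omega
      · rintro (rfl | rfl)
        · change (orb (stabilizer G c) c).ncard = 1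
          rw [orb_one_iff]
        · change (orb (stabilizer G a) c).ncard = 1
          have h8 : orb (stabilizer G a) c = {c} := by
            ext d
            constructor
            · intro hd
              by_contra hdc
              have hdc' : d ≠ c := hdc
              have hda : d ≠ a := by
                rintro rfl
                obtain ⟨g, hg, hgc⟩ := hd
                have : g • d = d := hg
                apply hba
                rw [← this] at hgc
                exact (smul_left_cancel g hgc).symm
              have h6 := hM5 d (hnot d hda hdc')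
              have h7 := ncard_le_ncard (orb_mono hMa d) (Set.toFinite _)
              rw [orb_eq_of_mem hd] at h7
              omega
            · rintro rfl
              exact self_mem_orb _ _
          rw [h8, ncard_singleton]
    have hdvd := (hblock1 a).ncard_dvd_card ⟨a, by rw [hfix]; simp⟩
    rw [hfix, ncard_pair hba, hcard] at hdvd
    omega
  · -- `K` is a point stabilizer
    obtain ⟨w, hw⟩ := (ncard_pos (Set.toFinite _)).1 hk
    have hw' : (orb K w).ncard = 1 := hw
    rw [orb_one_iff] at hw'
    have hKw : K = stabilizer G w := Subgroup.eq_of_le_of_card_ge hw' (by rw [← hK w])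
    have hall : ∀ v : Ω, ∃ g : G, g • w = v := fun v => exists_smul_eq G w v
    have h5' : ∀ v : Ω, (Sz 5 (stabilizer G v) : Set Ω).ncard = 5 := by
      intro v
      obtain ⟨g, rfl⟩ := hall v
      rw [Sz_smul, ncard_smul_set, ← hKw, h5]
    have h125' : ∀ v c : Ω, (orb (stabilizer G v) c).ncard = 1 ∨
        (orb (stabilizer G v) c).ncard = 2 ∨ (orb (stabilizer G v) c).ncard = 5 := by
      intro v c
      obtain ⟨g, rfl⟩ := hall v
      have key : ∀ i, (orb (stabilizer G (g • w)) c).ncard = i ↔
          (orb K (g⁻¹ • c)).ncard = i := by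
        intro i
        have h1 := Sz_smul i g w
        have h2 : c ∈ (Sz i (stabilizer G (g • w)) : Set Ω) ↔
          c ∈ g • (Sz i (stabilizer G w) : Set Ω) := by rw [h1]
        rw [mem_smul_set_iff_inv_smul_mem, ← hKw] at h2
        exact h2
      rw [key, key, key]
      exact h125 _
    have hblock5 : IsBlock G ((Sz 5 (stabilizer G w) : Set Ω)ᶜ) := by
      apply isBlock_of (G := G) (fun w => (Sz 5 (stabilizer G w) : Set Ω)ᶜ)
      · intro g v
        change (Sz 5 (stabilizer G (g • v)) : Set Ω)ᶜ = g • (Sz 5 (stabilizer G v) : Set Ω)ᶜ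
        rw [Sz_smul, smul_set_compl]
      · intro v b hb
        change (Sz 5 (stabilizer G b) : Set Ω)ᶜ = (Sz 5 (stabilizer G v) : Set Ω)ᶜ
        have hb' : ¬ (orb (stabilizer G v) b).ncard = 5 := hb
        congr 1
        rcases h125' v b with h | h | h
        · rw [orb_one_iff] at h
          rw [eq_of_le v b h]
        · symm
          apply eq_of_subset_of_ncard_le _ _ (Set.toFinite _)
          · intro c hc
            have hc' : (orb (stabilizer G v) c).ncard = 5 := hc
            have h9 := five (by rw [← orb_ncard]; exact h) hc'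
            have h10 := ncard_le_ncard
              (orb_mono (inf_le_right : stabilizer G v ⊓ stabilizer G b ≤ stabilizer G b) c)
              (Set.toFinite _)
            rw [h9, hc'] at h10
            change (orb (stabilizer G b) c).ncard = 5
            rcases h125' b c with h' | h' | h' <;> omega
          · rw [h5', h5']
        · exact (hb' h).elim
    have hne5 : ((Sz 5 (stabilizer G w) : Set Ω)ᶜ).Nonempty := by
      refine ⟨w, ?_⟩
      change ¬ (orb (stabilizer G w) w).ncard = 5
      have : (orb (stabilizer G w) w).ncard = 1 := by rw [orb_one_iff]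
      omega
    have hd5 := hblock5.ncard_dvd_card hne5
    have hd1 := (hblock1 w).ncard_dvd_card ⟨w, by
      change (orb (stabilizer G w) w).ncard = 1; rw [orb_one_iff]⟩
    have hc5 := ncard_add_ncard_compl (Sz 5 (stabilizer G w) : Set Ω) (Set.toFinite _) (Set.toFinite _)
    rw [h5' w, hcard] at hc5
    rw [hcard] at hd5 hd1
    rw [← hKw] at hd1 hd5 hc5
    set k := (Sz 1 K : Set Ω).ncard with hkdef
    have e5 : ((Sz 5 K : Set Ω)ᶜ).ncard = k + 2 := by omega
    rw [e5] at hd5
    have hd7 : k ∣ 7 := (Nat.dvd_add_right (dvd_refl k)).1 hd1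
    have hd5' : k + 2 ∣ 5 := by
      have : k + 7 = (k + 2) + 5 := by ring
      rw [this] at hd5
      exact (Nat.dvd_add_right (dvd_refl _)).1 hd5
    have hk7 : k ≤ 7 := Nat.le_of_dvd (by norm_num) hd7
    interval_cases k <;> omega

end Pool.Agent.Q180.TP
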