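import Pool.Agent.Q180.TP.Perm
import Pool.Agent.Q180.TP.Orb

/-!
# The common transversal probability
-/

namespace Pool.Agent.Q180.TP

open Finset

variable {G : Type*} [Group G]

/-- `S` is a left transversal of `H`: it meets every left coset `gH` in exactly one element. -/
def IsLT (H : Subgroup G) (S : Set G) : Prop := ∀ g : G, ∃! s, s ∈ S ∧ s⁻¹ * g ∈ H

/-- `S` is a right transversal of `K`: it meets every right coset `Kg` in exactly one element. -/
def IsRT (K : Subgroup G) (S : Set G) : Prop := ∀ g : G, ∃! s, s ∈ S ∧ g * s⁻¹ ∈ K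

/-- The common transversal probability. -/
noncomputable def P (H K : Subgroup G) : ℚ :=
  ({S : Set G | IsLT H S ∧ IsRT K S}.ncard : ℚ) / (Nat.card H : ℚ) ^ H.index

/-- right cosets -/
abbrev RQ (K : Subgroup G) := Quotient (QuotientGroup.rightRel K)

/-- the right coset of `x` -/
def mkR (K : Subgroup G) (x : G) : RQ K := Quotient.mk'' x

lemma mkR_eq {K : Subgroup G} {x y : G} : mkR K x = mkR K y ↔ y * x⁻¹ ∈ K := by
  unfold mkR
  rw [Quotient.eq'', QuotientGroup.rightRel_apply]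

/-- the left coset of `x` -/
def mkL (H : Subgroup G) (x : G) : G ⧸ H := QuotientGroup.mk x

lemma mkL_eq {H : Subgroup G} {x y : G} : mkL H x = mkL H y ↔ x⁻¹ * y ∈ H := QuotientGroup.eq

/-- double cosets -/
def dc (H K : Subgroup G) : Setoid G where
  r x y := ∃ k ∈ K, ∃ h ∈ H, y = k * x * h
  iseqv := by
    refine ⟨fun x => ⟨1, K.one_mem, 1, H.one_mem, by simp⟩, ?_, ?_⟩
    · rintro x y ⟨k, hk, h, hh, rfl⟩
      exact ⟨k⁻¹, K.inv_mem hk, h⁻¹, H.inv_mem hh, by group⟩
    · rintro x y z ⟨k, hk, h, hh, rfl⟩ ⟨k', hk', h', hh', rfl⟩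
      exact ⟨k' * k, K.mul_mem hk' hk, h * h', H.mul_mem hh hh', by group⟩

abbrev DQ (H K : Subgroup G) := Quotient (dc H K)

def mkD (H K : Subgroup G) (x : G) : DQ H K := Quotient.mk (dc H K) x

lemma mkD_eq {H K : Subgroup G} {x y : G} :
    mkD H K x = mkD H K y ↔ ∃ k ∈ K, ∃ h ∈ H, y = k * x * h := by
  unfold mkD
  rw [Quotient.eq]
  rfl

/-- the double coset of a left coset -/
def pL (H K : Subgroup G) : G ⧸ H → DQ H K :=
  Quotient.lift (fun x => mkD H K x) (by
    intro x y hxy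
    rw [mkD_eq]
    have h : x⁻¹ * y ∈ H := QuotientGroup.leftRel_apply.1 hxy
    exact ⟨1, K.one_mem, x⁻¹ * y, h, by group⟩)

/-- the double coset of a right coset -/
def pR (H K : Subgroup G) : RQ K → DQ H K :=
  Quotient.lift (fun x => mkD H K x) (by
    intro x y hxy
    rw [mkD_eq]
    have h : y * x⁻¹ ∈ K := QuotientGroup.rightRel_apply.1 hxy
    exact ⟨y * x⁻¹, h, 1, H.one_mem, by group⟩)

lemma pL_mk (H K : Subgroup G) (x : G) : pL H K (mkL H x) = mkD H K x := rfl
lemma pR_mk (H K : Subgroup G) (x : G) : pR H K (mkR K x) = mkD H K x := rfl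

lemma mkL_surj (H : Subgroup G) (c : G ⧸ H) : ∃ x, mkL H x = c := Quotient.exists_rep c
lemma mkR_surj (K : Subgroup G) (c : RQ K) : ∃ x, mkR K x = c := Quotient.exists_rep c

variable [Finite G]

lemma card_mkL (H : Subgroup G) (c : G ⧸ H) : Nat.card {x : G // mkL H x = c} = Nat.card H := by
  obtain ⟨x0, rfl⟩ := mkL_surj H c
  apply Nat.card_congr
  refine ⟨fun x => ⟨x0⁻¹ * x.1, mkL_eq.1 x.2.symm⟩, fun h => ⟨x0 * h.1, ?_⟩, ?_, ?_⟩
  · symm
    rw [mkL_eq]
    simp [h.2]
  · intro x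
    ext
    simp
  · intro h
    ext
    simp

lemma card_mkR (K : Subgroup G) (c : RQ K) : Nat.card {x : G // mkR K x = c} = Nat.card K := by
  obtain ⟨x0, rfl⟩ := mkR_surj K c
  apply Nat.card_congr
  refine ⟨fun x => ⟨x.1 * x0⁻¹, mkR_eq.1 x.2.symm⟩, fun h => ⟨h.1 * x0, ?_⟩, ?_, ?_⟩
  · symm
    rw [mkR_eq]
    simp [h.2]
  · intro x
    ext
    simp
  · intro h
    ext
    simp

/-- the number of left cosets in a double coset -/
noncomputable def tt (H K : Subgroup G) (d : DQ H K) : ℕ := Nat.card {a : G ⧸ H // pL H K a = d}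

lemma card_D_left (H K : Subgroup G) (d : DQ H K) :
    Nat.card {x : G // mkD H K x = d} = tt H K d * Nat.card H := by
  classical
  have : Fintype {a : G ⧸ H // pL H K a = d} := Fintype.ofFinite _
  have e : {x : G // mkD H K x = d} ≃
      Σ a : {a : G ⧸ H // pL H K a = d}, {x : G // mkL H x = a.1} :=
    { toFun := fun x => ⟨⟨mkL H x.1, x.2⟩, ⟨x.1, rfl⟩⟩
      invFun := fun y => ⟨y.2.1, by
        have h1 := y.1.2
        rw [← y.2.2] at h1
        exact h1⟩
      left_inv := fun x => rfl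
      right_inv := by
        rintro ⟨⟨a, ha⟩, ⟨x, hx⟩⟩
        simp only at hx
        subst hx
        rfl }
  rw [Nat.card_congr e, Nat.card_sigma, Finset.sum_congr rfl (fun a _ => card_mkL H a.1),
    Finset.sum_const, Finset.card_univ, ← Nat.card_eq_fintype_card, smul_eq_mul, tt]

lemma card_D_right (H K : Subgroup G) (d : DQ H K) :
    Nat.card {x : G // mkD H K x = d} = Nat.card {b : RQ K // pR H K b = d} * Nat.card K := by
  classical
  have : Fintype {b : RQ K // pR H K b = d} := Fintype.ofFinite _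
  have e : {x : G // mkD H K x = d} ≃
      Σ a : {b : RQ K // pR H K b = d}, {x : G // mkR K x = a.1} :=
    { toFun := fun x => ⟨⟨mkR K x.1, x.2⟩, ⟨x.1, rfl⟩⟩
      invFun := fun y => ⟨y.2.1, by
        have h1 := y.1.2
        rw [← y.2.2] at h1
        exact h1⟩
      left_inv := fun x => rfl
      right_inv := by
        rintro ⟨⟨a, ha⟩, ⟨x, hx⟩⟩
        simp only at hx
        subst hx
        rfl }
  rw [Nat.card_congr e, Nat.card_sigma, Finset.sum_congr rfl (fun a _ => card_mkR K a.1),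
    Finset.sum_const, Finset.card_univ, ← Nat.card_eq_fintype_card, smul_eq_mul]

lemma tt_right {H K : Subgroup G} (hHK : Nat.card H = Nat.card K) (d : DQ H K) :
    Nat.card {b : RQ K // pR H K b = d} = tt H K d := by
  have h1 := card_D_left H K d
  rw [card_D_right, hHK] at h1
  exact Nat.eq_of_mul_eq_mul_right Nat.card_pos h1

lemma tt_pos (H K : Subgroup G) (d : DQ H K) : 1 ≤ tt H K d := by
  obtain ⟨x, rfl⟩ := Quotient.exists_rep d
  have : Nonempty {a : G ⧸ H // pL H K a = (Quotient.mk (dc H K) x)} := ⟨⟨mkL H x, rfl⟩⟩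
  exact Nat.card_pos

/-- the number of elements in the intersection of a left and a right coset -/
noncomputable def mm (H K : Subgroup G) (c : G ⧸ H) (d : RQ K) : ℕ :=
  Nat.card {x : G // mkL H x = c ∧ mkR K x = d}

lemma mm_const {H K : Subgroup G} {x1 x2 : G} (h : mkD H K x1 = mkD H K x2) :
    mm H K (mkL H x1) (mkR K x1) = mm H K (mkL H x2) (mkR K x2) := by
  obtain ⟨k, hk, l, hl, rfl⟩ := mkD_eq.1 h
  apply Nat.card_congr
  refine ⟨fun x => ⟨k * x.1 * l, ?_, ?_⟩, fun x => ⟨k⁻¹ * x.1 * l⁻¹, ?_, ?_⟩, ?_, ?_⟩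
  · have h1 := mkL_eq.1 x.2.1
    rw [mkL_eq]
    have e : (k * x.1 * l)⁻¹ * (k * x1 * l) = l⁻¹ * (x.1⁻¹ * x1) * l := by group
    rw [e]
    exact H.mul_mem (H.mul_mem (H.inv_mem hl) h1) hl
  · have h1 := mkR_eq.1 x.2.2
    rw [mkR_eq]
    have e : k * x1 * l * (k * x.1 * l)⁻¹ = k * (x1 * x.1⁻¹) * k⁻¹ := by group
    rw [e]
    exact K.mul_mem (K.mul_mem hk h1) (K.inv_mem hk)
  · have h1 := mkL_eq.1 x.2.1
    rw [mkL_eq]
    have e : (k⁻¹ * x.1 * l⁻¹)⁻¹ * x1 = l * (x.1⁻¹ * (k * x1 * l)) * l⁻¹ := by group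
    rw [e]
    exact H.mul_mem (H.mul_mem hl h1) (H.inv_mem hl)
  · have h1 := mkR_eq.1 x.2.2
    rw [mkR_eq]
    have e : x1 * (k⁻¹ * x.1 * l⁻¹)⁻¹ = k⁻¹ * (k * x1 * l * x.1⁻¹) * k := by group
    rw [e]
    exact K.mul_mem (K.mul_mem (K.inv_mem hk) h1) hk
  · intro x
    ext
    simp only
    group
  · intro x
    ext
    simp only
    group

lemma exists_common {H K : Subgroup G} {c : G ⧸ H} {d : RQ K} (h : pL H K c = pR H K d) :
    ∃ x, mkL H x = c ∧ mkR K x = d := by
  obtain ⟨x1, rfl⟩ := mkL_surj H c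
  obtain ⟨x2, rfl⟩ := mkR_surj K d
  rw [pL_mk, pR_mk] at h
  obtain ⟨k, hk, l, hl, rfl⟩ := mkD_eq.1 h
  refine ⟨x1 * l, ?_, ?_⟩
  · rw [mkL_eq]
    have e : (x1 * l)⁻¹ * x1 = l⁻¹ := by group
    rw [e]
    exact H.inv_mem hl
  · rw [mkR_eq]
    have e : k * x1 * l * (x1 * l)⁻¹ = k := by group
    rw [e]
    exact hk

lemma mm_zero {H K : Subgroup G} {c : G ⧸ H} {d : RQ K} (h : pL H K c ≠ pR H K d) :
    mm H K c d = 0 := by
  have : IsEmpty {x : G // mkL H x = c ∧ mkR K x = d} := by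
    constructor
    rintro ⟨x, rfl, rfl⟩
    exact h rfl
  exact Nat.card_of_isEmpty

lemma mm_val {H K : Subgroup G} (hHK : Nat.card H = Nat.card K) {c : G ⧸ H} {d : RQ K}
    (h : pL H K c = pR H K d) :
    (mm H K c d : ℚ) / Nat.card H = 1 / (tt H K (pL H K c) : ℚ) := by
  classical
  have : Fintype (RQ K) := Fintype.ofFinite _
  have hsum : ∑ d' : RQ K, mm H K c d' = Nat.card H := by
    rw [← card_mkL H c]
    have e : {x : G // mkL H x = c} ≃ Σ d' : RQ K, {x : G // mkL H x = c ∧ mkR K x = d'} :=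
      { toFun := fun x => ⟨mkR K x.1, ⟨x.1, x.2, rfl⟩⟩
        invFun := fun y => ⟨y.2.1, y.2.2.1⟩
        left_inv := fun x => rfl
        right_inv := by
          rintro ⟨d', ⟨x, hx1, hx2⟩⟩
          subst hx2
          rfl }
    rw [Nat.card_congr e, Nat.card_sigma]
    rfl
  have hconst : ∀ d' : RQ K, mm H K c d' = if pR H K d' = pL H K c then mm H K c d else 0 := by
    intro d'
    split_ifs with h'
    · obtain ⟨x, hx1, hx2⟩ := exists_common h
      obtain ⟨y, hy1, hy2⟩ := exists_common h'.symm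
      have : mkD H K y = mkD H K x := by
        rw [← pL_mk, ← pL_mk, hx1, hy1]
      have h3 := mm_const this
      rwa [hx1, hx2, hy1, hy2] at h3
    · exact mm_zero (Ne.symm h')
  rw [Finset.sum_congr rfl (fun d' _ => hconst d'), ← Finset.sum_filter, Finset.sum_const,
    smul_eq_mul, ← Fintype.card_subtype, ← Nat.card_eq_fintype_card, tt_right hHK] at hsum
  have hpos : (0:ℚ) < Nat.card H := by exact_mod_cast Nat.card_pos
  have htpos : (0:ℚ) < tt H K (pL H K c) := by
    exact_mod_cast tt_pos H K (pL H K c)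
  rw [div_eq_div_iff hpos.ne' htpos.ne', one_mul, ← hsum]
  push_cast
  ring

/-- counting the common transversals -/
lemma card_DT (H K : Subgroup G) [Fintype (G ⧸ H)] [Fintype (RQ K)] [DecidableEq (G ⧸ H)]
    [DecidableEq (RQ K)] :
    {S : Set G | IsLT H S ∧ IsRT K S}.ncard = ∑ σ : (G ⧸ H) ≃ RQ K, ∏ c, mm H K c (σ c) := by
  classical
  rw [← Nat.card_coe_set_eq]
  -- first step: sections
  let F := {s : (G ⧸ H) → G // (∀ c, mkL H (s c) = c) ∧ Function.Bijective fun c => mkR K (s c)}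
  have hLT : ∀ {S : Set G}, IsLT H S → ∀ c : G ⧸ H, ∃! x, x ∈ S ∧ mkL H x = c := by
    intro S hS c
    obtain ⟨g, rfl⟩ := mkL_surj H c
    obtain ⟨s, hs, hu⟩ := hS g
    refine ⟨s, ⟨hs.1, mkL_eq.2 hs.2⟩, ?_⟩
    rintro y ⟨hy1, hy2⟩
    exact hu y ⟨hy1, mkL_eq.1 hy2⟩
  have hRT : ∀ {S : Set G}, IsRT K S → ∀ c : RQ K, ∃! x, x ∈ S ∧ mkR K x = c := by
    intro S hS c
    obtain ⟨g, rfl⟩ := mkR_surj K c
    obtain ⟨s, hs, hu⟩ := hS g
    refine ⟨s, ⟨hs.1, mkR_eq.2 hs.2⟩, ?_⟩
    rintro y ⟨hy1, hy2⟩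
    exact hu y ⟨hy1, mkR_eq.1 hy2⟩
  have hF : ∀ s : F, IsLT H (Set.range s.1) ∧ IsRT K (Set.range s.1) := by
    rintro ⟨s, hs, hb⟩
    constructor
    · intro g
      refine ⟨s (mkL H g), ⟨⟨_, rfl⟩, mkL_eq.1 (hs _)⟩, ?_⟩
      rintro y ⟨⟨c, rfl⟩, hy⟩
      have h1 := mkL_eq.2 hy
      have h2 := hs c
      rw [h2] at h1
      rw [h1]
    · intro g
      obtain ⟨c, hc⟩ := hb.2 (mkR K g)
      refine ⟨s c, ⟨⟨_, rfl⟩, mkR_eq.1 hc⟩, ?_⟩
      rintro y ⟨⟨c', rfl⟩, hy⟩
      have h1 := mkR_eq.2 hy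
      have h2 : c' = c := hb.1 (h1.trans hc.symm)
      rw [h2]
  have e1 : F ≃ {S : Set G // S ∈ {S : Set G | IsLT H S ∧ IsRT K S}} := by
    refine Equiv.ofBijective (fun s => ⟨Set.range s.1, hF s⟩) ⟨?_, ?_⟩
    · intro s s' hss
      have h1 : Set.range s.1 = Set.range s'.1 := congrArg Subtype.val hss
      ext c
      have h2 : s.1 c ∈ Set.range s'.1 := by rw [← h1]; exact ⟨c, rfl⟩
      obtain ⟨c', hc'⟩ := h2
      have h3 : c' = c := by
        rw [← s'.2.1 c', hc', s.2.1 c]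
      rw [← hc', h3]
    · rintro ⟨S, hS1, hS2⟩
      choose s hs hu using hLT hS1
      have hrange : Set.range s = S := by
        ext y
        constructor
        · rintro ⟨c, rfl⟩
          exact (hs c).1
        · intro hy
          exact ⟨mkL H y, (hu (mkL H y) y ⟨hy, rfl⟩).symm⟩
      refine ⟨⟨s, fun c => (hs c).2, ?_, ?_⟩, Subtype.ext hrange⟩
      · intro c c' hcc
        obtain ⟨x, -, hx⟩ := hRT hS2 (mkR K (s c))
        have h1 := hx (s c) ⟨(hs c).1, rfl⟩
        have h2 := hx (s c') ⟨(hs c').1, hcc.symm⟩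
        rw [← (hs c).2, ← (hs c').2, h1, h2]
      · intro d
        obtain ⟨x, ⟨hxS, hxd⟩, -⟩ := hRT hS2 d
        refine ⟨mkL H x, ?_⟩
        change mkR K (s (mkL H x)) = d
        rw [← hu (mkL H x) x ⟨hxS, rfl⟩, hxd]
  have e2 : F ≃ Σ σ : (G ⧸ H) ≃ RQ K, ∀ c, {x : G // mkL H x = c ∧ mkR K x = σ c} :=
    { toFun := fun s => ⟨Equiv.ofBijective _ s.2.2, fun c => ⟨s.1 c, s.2.1 c, rfl⟩⟩
      invFun := fun y => ⟨fun c => (y.2 c).1, fun c => (y.2 c).2.1, by
        have : (fun c => mkR K (y.2 c).1) = y.1 := funext fun c => (y.2 c).2.2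
        rw [this]
        exact y.1.bijective⟩
      left_inv := fun s => rfl
      right_inv := by
        rintro ⟨σ, s⟩
        have h : Equiv.ofBijective (fun c => mkR K (s c).1) (by
            have : (fun c => mkR K (s c).1) = σ := funext fun c => (s c).2.2
            rw [this]
            exact σ.bijective) = σ := by
          ext c
          exact (s c).2.2
        refine Sigma.ext h ?_
        apply Function.hfunext rfl
        intro c c' hcc
        have hcc' : c = c' := eq_of_heq hcc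
        subst hcc'
        rw [Subtype.heq_iff_coe_eq]
        intro x
        change (mkL H x = c ∧ mkR K x = mkR K (s c).1) ↔ (mkL H x = c ∧ mkR K x = σ c)
        rw [(s c).2.2] }
  rw [← Nat.card_congr e1, Nat.card_congr e2, Nat.card_sigma]
  apply Finset.sum_congr rfl
  intro σ _
  rw [Nat.card_pi]
  rfl

/-- the formula for the common transversal probability -/
theorem P_formula {H K : Subgroup G} (hHK : Nat.card H = Nat.card K) [Fintype (DQ H K)] :
    P H K = ∏ d : DQ H K, phi (tt H K d) := by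
  classical
  have : Fintype (G ⧸ H) := Fintype.ofFinite _
  have : Fintype (RQ K) := Fintype.ofFinite _
  have hpos : (0:ℚ) < Nat.card H := by exact_mod_cast Nat.card_pos
  have hidx : H.index = Fintype.card (G ⧸ H) := by
    rw [Subgroup.index, Nat.card_eq_fintype_card]
  have h1 : P H K = ∑ σ : (G ⧸ H) ≃ RQ K, ∏ c, ((mm H K c (σ c) : ℚ) / Nat.card H) := by
    rw [P, card_DT, Nat.cast_sum, Finset.sum_div]
    apply Finset.sum_congr rfl
    intro σ _
    rw [Finset.prod_div_distrib, Finset.prod_const, Finset.card_univ, ← hidx, Nat.cast_prod]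
  have h2 : P H K = ∑ σ : (G ⧸ H) ≃ RQ K, ∏ c,
      (if pL H K c = pR H K (σ c) then 1 / (tt H K (pL H K c) : ℚ) else 0) := by
    rw [h1]
    apply Finset.sum_congr rfl
    intro σ _
    apply Finset.prod_congr rfl
    intro c _
    split_ifs with h
    · exact mm_val hHK h
    · rw [mm_zero h]; simp
  rw [h2, sum_perm (pL H K) (pR H K) (tt H K) (fun d => by rw [tt, Nat.card_eq_fintype_card])
    (fun d => by rw [← tt_right hHK, Nat.card_eq_fintype_card])
    (fun d => 1 / (tt H K d : ℚ))]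
  apply Finset.prod_congr rfl
  intro d _
  exact phi_eq _

/-- the orbits of `K` on the left cosets of `H` -/
lemma orb_eq (H K : Subgroup G) (c : G ⧸ H) : orb K c = {a | pL H K a = pL H K c} := by
  obtain ⟨x, rfl⟩ := mkL_surj H c
  ext a
  obtain ⟨y, rfl⟩ := mkL_surj H a
  rw [Set.mem_ofPred_eq, pL_mk, pL_mk]
  constructor
  · rintro ⟨k, hk, hky⟩
    have h1 : mkL H (k * x) = mkL H y := hky
    rw [mkL_eq] at h1
    symm
    rw [mkD_eq]
    exact ⟨k, hk, (k * x)⁻¹ * y, h1, by group⟩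
  · intro h
    obtain ⟨k, hk, l, hl, hyx⟩ := mkD_eq.1 h.symm
    refine ⟨k, hk, ?_⟩
    change mkL H (k * x) = mkL H y
    rw [mkL_eq, hyx]
    have e : (k * x)⁻¹ * (k * x * l) = l := by group
    rw [e]
    exact hl

lemma orb_tt (H K : Subgroup G) (c : G ⧸ H) : (orb K c).ncard = tt H K (pL H K c) := by
  rw [orb_eq, tt, ← Nat.card_coe_set_eq]
  rfl

theorem P_ne {H K : Subgroup G} (hHK : Nat.card H = Nat.card K) : P H K ≠ 12 / 625 := by
  classical
  intro hP
  have : Fintype (DQ H K) := Fintype.ofFinite _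
  rw [P_formula hHK] at hP
  obtain ⟨d5, d2, hne, h5, h2, h1⟩ := structure_of_prod (tt H K) (tt_pos H K) hP
  have hS : ∀ (i : ℕ) (d : DQ H K), (∀ d', tt H K d' = i ↔ d' = d) → tt H K d = i →
      (Sz i K : Set (G ⧸ H)).ncard = i := by
    intro i d hd hdi
    have e : (Sz i K : Set (G ⧸ H)) = {a | pL H K a = d} := by
      ext c
      change (orb K c).ncard = i ↔ _
      rw [orb_tt, hd]
      rfl
    rw [e, ← Nat.card_coe_set_eq, ← hdi]
    rfl
  refine no_two_five (Ω := G ⧸ H) K ?_ ?_ ?_ ?_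
  · intro w
    have e1 := Subgroup.card_mul_index (MulAction.stabilizer G w)
    rw [MulAction.index_stabilizer_of_transitive] at e1
    have e2 := Subgroup.card_mul_index H
    rw [Subgroup.index, ← e1] at e2
    rw [← hHK]
    exact Nat.eq_of_mul_eq_mul_right Nat.card_pos e2
  · intro c
    rw [orb_tt]
    by_cases hc5 : pL H K c = d5
    · rw [hc5, h5]; simp
    · by_cases hc2 : pL H K c = d2
      · rw [hc2, h2]; simp
      · left; exact h1 _ hc5 hc2
  · apply hS 2 d2 _ h2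
    intro d'
    constructor
    · intro hd'
      by_contra hcon
      by_cases h' : d' = d5
      · rw [h', h5] at hd'; omega
      · rw [h1 d' h' hcon] at hd'; omega
    · rintro rfl; exact h2
  · apply hS 5 d5 _ h5
    intro d'
    constructor
    · intro hd'
      by_contra hcon
      by_cases h' : d' = d2
      · rw [h', h2] at hd'; omega
      · rw [h1 d' hcon h'] at hd'; omega
    · rintro rfl; exact h5

end Pool.Agent.Q180.TP
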