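import Mathlib

/-!
# Permanents of block constant matrices and the value `12/625`
-/

namespace Pool.Agent.Q180.TP

open Finset Equiv

theorem sum_perm {α β D : Type*} [Fintype α] [Fintype β] [Fintype D] [DecidableEq α]
    [DecidableEq β] [DecidableEq D] (p : α → D) (q : β → D) (t : D → ℕ)
    (hp : ∀ d, Fintype.card {a // p a = d} = t d) (hq : ∀ d, Fintype.card {b // q b = d} = t d)
    (c : D → ℚ) :
    ∑ σ : α ≃ β, ∏ a, (if p a = q (σ a) then c (p a) else 0) =
      ∏ d, (((t d).factorial : ℚ) * c d ^ t d) := by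
  classical
  let e : ∀ d, {a // p a = d} ≃ {b // q b = d} := fun d =>
    Fintype.equivOfCardEq ((hp d).trans (hq d).symm)
  let σ0 : α ≃ β := (Equiv.sigmaFiberEquiv p).symm.trans
    ((Equiv.sigmaCongrRight e).trans (Equiv.sigmaFiberEquiv q))
  have hσ0 : ∀ a, q (σ0 a) = p a := fun a => (e (p a) ⟨a, rfl⟩).2
  have h1 : ∑ σ : α ≃ β, ∏ a, (if p a = q (σ a) then c (p a) else 0) =
      ∑ π : Perm α, ∏ a, (if p a = p (π a) then c (p a) else 0) := by
    symm
    apply Fintype.sum_equiv ((Equiv.refl α).equivCongr σ0)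
    intro π
    apply Finset.prod_congr rfl
    intro a _
    have : ((Equiv.refl α).equivCongr σ0) π a = σ0 (π a) := rfl
    rw [this, hσ0]
  rw [h1]
  have h2 : ∀ π : Perm α, ∏ a, (if p a = p (π a) then c (p a) else 0) =
      if p ∘ π = p then ∏ a, c (p a) else 0 := by
    intro π
    by_cases h : p ∘ π = p
    · rw [if_pos h]
      apply Finset.prod_congr rfl
      intro a _
      exact if_pos (congrFun h a).symm
    · rw [if_neg h]
      have : ∃ a, p (π a) ≠ p a := by
        by_contra hcon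
        push Not at hcon
        exact h (funext hcon)
      obtain ⟨a, ha⟩ := this
      exact Finset.prod_eq_zero (mem_univ a) (if_neg (Ne.symm ha))
  rw [Finset.sum_congr rfl fun π _ => h2 π, ← Finset.sum_filter, Finset.sum_const,
    ← Fintype.card_subtype, DomMulAct.stabilizer_card, nsmul_eq_mul, Nat.cast_prod,
    Finset.prod_mul_distrib]
  congr 1
  · apply Finset.prod_congr rfl
    intro d _
    rw [hp]
  · rw [← Finset.prod_fiberwise univ p (fun a => c (p a))]
    apply Finset.prod_congr rfl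
    intro d _
    rw [← hp d, Fintype.card_subtype, ← Finset.prod_const]
    apply Finset.prod_congr rfl
    intro a ha
    rw [(Finset.mem_filter.1 ha).2]

/-- `t! / t ^ t` -/
def phi (t : ℕ) : ℚ := (t.factorial : ℚ) / (t : ℚ) ^ t

lemma phi_eq (t : ℕ) : (t.factorial : ℚ) * (1 / (t : ℚ)) ^ t = phi t := by
  rw [phi, one_div, inv_pow, div_eq_mul_inv]

lemma phi_succ_le (t : ℕ) (ht : 1 ≤ t) : phi (t + 1) ≤ phi t := by
  unfold phi
  have h0 : (0:ℚ) < t := by exact_mod_cast ht
  rw [div_le_div_iff₀ (by positivity) (by positivity), Nat.factorial_succ, pow_succ]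
  push_cast
  have h1 : (t:ℚ) ^ t ≤ ((t:ℚ) + 1) ^ t := pow_le_pow_left₀ h0.le (by linarith) t
  have h2 : (0:ℚ) < (t.factorial : ℚ) := by exact_mod_cast Nat.factorial_pos t
  calc ((t:ℚ) + 1) * (t.factorial : ℚ) * (t:ℚ) ^ t
      ≤ ((t:ℚ) + 1) * (t.factorial : ℚ) * ((t:ℚ) + 1) ^ t :=
        mul_le_mul_of_nonneg_left h1 (by positivity)
    _ = (t.factorial : ℚ) * (((t:ℚ) + 1) ^ t * ((t:ℚ) + 1)) := by ring

lemma phi_anti {s t : ℕ} (hs : 1 ≤ s) (hst : s ≤ t) : phi t ≤ phi s := by
  induction t, hst using Nat.le_induction with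
  | base => exact le_refl _
  | succ t hst ih => exact (phi_succ_le t (hs.trans hst)).trans ih

lemma phi_pos {t : ℕ} (ht : 1 ≤ t) : 0 < phi t := by
  have h0 : (0:ℚ) < t := by exact_mod_cast ht
  have h2 : (0:ℚ) < (t.factorial : ℚ) := by exact_mod_cast Nat.factorial_pos t
  unfold phi
  positivity

lemma phi_one : phi 1 = 1 := by norm_num [phi]
lemma phi_two : phi 2 = 1 / 2 := by norm_num [phi]
lemma phi_three : phi 3 = 2 / 9 := by norm_num [phi, Nat.factorial]
lemma phi_five : phi 5 = 24 / 625 := by norm_num [phi, Nat.factorial]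
lemma phi_six : phi 6 = 5 / 324 := by norm_num [phi, Nat.factorial]

lemma phi_le_one {t : ℕ} (ht : 1 ≤ t) : phi t ≤ 1 := by
  rw [← phi_one]; exact phi_anti le_rfl ht

/-- which products of the numbers `t! / t ^ t` have the value `12/625` -/
theorem structure_of_prod {D : Type*} [Fintype D] [DecidableEq D] (t : D → ℕ) (ht : ∀ d, 1 ≤ t d)
    (h : ∏ d, phi (t d) = 12 / 625) :
    ∃ d5 d2, d2 ≠ d5 ∧ t d5 = 5 ∧ t d2 = 2 ∧ ∀ d, d ≠ d5 → d ≠ d2 → t d = 1 := by
  have hle : ∀ (s : Finset D), ∏ d ∈ s, phi (t d) ≤ 1 := fun s =>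
    Finset.prod_le_one (fun d _ => (phi_pos (ht d)).le) (fun d _ => phi_le_one (ht d))
  have hpos : ∀ (s : Finset D), 0 < ∏ d ∈ s, phi (t d) := fun s =>
    Finset.prod_pos fun d _ => phi_pos (ht d)
  have hle2 : ∀ (s : Finset D) (d : D), d ∈ s → ∏ d ∈ s, phi (t d) ≤ phi (t d) := by
    intro s d hd
    rw [← Finset.mul_prod_erase s _ hd]
    have := mul_le_mul_of_nonneg_left (hle (s.erase d)) (phi_pos (ht d)).le
    linarith
  -- all `t d ≤ 5`
  have h5 : ∀ d, t d ≤ 5 := by
    intro d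
    by_contra hcon
    push Not at hcon
    have h1 := hle2 univ d (mem_univ d)
    have h2 := phi_anti (s := 6) (t := t d) (by norm_num) (by omega)
    rw [phi_six] at h2
    rw [h] at h1
    norm_num at h1 h2
    linarith
  -- some `t d = 5`
  obtain ⟨d5, hd5⟩ : ∃ d5, t d5 = 5 := by
    by_contra hcon
    push Not at hcon
    have h1 : (∏ d, ((t d).factorial : ℚ)) / ∏ d, ((t d : ℚ) ^ t d) = 12 / 625 := by
      rw [← h, ← Finset.prod_div_distrib]; rfl
    have hne : (∏ d, ((t d : ℚ) ^ t d)) ≠ 0 := by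
      apply Finset.prod_ne_zero_iff.2
      intro d _
      apply pow_ne_zero
      have := ht d
      exact_mod_cast (by omega : t d ≠ 0)
    rw [div_eq_div_iff hne (by norm_num)] at h1
    have h2 : (∏ d, (t d).factorial) * 625 = 12 * ∏ d, (t d) ^ t d := by exact_mod_cast h1
    have h3 : 5 ∣ 12 * ∏ d, (t d) ^ t d := by
      rw [← h2]
      exact Dvd.dvd.mul_left (by norm_num) _
    have hp5 : Nat.Prime 5 := by norm_num
    rcases (Nat.Prime.dvd_mul hp5).1 h3 with h4 | h4
    · omega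
    · obtain ⟨d, -, hd⟩ := (Prime.dvd_finsetProd_iff hp5.prime _).1 h4
      have h6 := hp5.dvd_of_dvd_pow hd
      have h7 := Nat.le_of_dvd (ht d) h6
      have h8 := h5 d
      exact hcon d (by omega)
  have hrest : ∏ d ∈ univ.erase d5, phi (t d) = 1 / 2 := by
    rw [← Finset.mul_prod_erase univ _ (mem_univ d5), hd5, phi_five] at h
    linarith
  obtain ⟨d2, hd2m, hd2⟩ : ∃ d2 ∈ univ.erase d5, t d2 ≠ 1 := by
    by_contra hcon
    push Not at hcon
    rw [Finset.prod_congr rfl (g := fun _ => (1:ℚ)) (by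
      intro d hd
      rw [hcon d hd, phi_one]), Finset.prod_const_one] at hrest
    norm_num at hrest
  have hd22 : t d2 = 2 := by
    have h1 := hle2 _ d2 hd2m
    rw [hrest] at h1
    by_contra hne
    have h3 : 3 ≤ t d2 := by have := ht d2; omega
    have h4 := phi_anti (s := 3) (by norm_num) h3
    rw [phi_three] at h4
    norm_num at h1 h4
    linarith
  have hrest2 : ∏ d ∈ (univ.erase d5).erase d2, phi (t d) = 1 := by
    rw [← Finset.mul_prod_erase _ _ hd2m, hd22, phi_two] at hrest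
    linarith
  refine ⟨d5, d2, (Finset.mem_erase.1 hd2m).1, hd5, hd22, ?_⟩
  intro d hda hdb
  by_contra hne
  have h2 : 2 ≤ t d := by have := ht d; omega
  have hm : d ∈ (univ.erase d5).erase d2 := by simp [hda, hdb]
  have h1 := hle2 _ d hm
  rw [hrest2] at h1
  have h4 := phi_anti (s := 2) (by norm_num) h2
  rw [phi_two] at h4
  norm_num at h4
  linarith

end Pool.Agent.Q180.TP
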