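import Pool.Agent.Q180.TP.Form

/-!
# `12/625` is not a common transversal probability (MP_e51b07_al, Q1 and Q2: both answered by no)

For `T = diag(T₁, T₂)` with blocks of sizes `2, 5`, and for `T = diag(T₁, T₂, T₃)` with blocks of sizes
`1, 2, 5`, the permanent is `12/625`. No finite group `G` has subgroups `H`, `K` of the same order with
`P_G(H, K) = 12/625`.

Proof. `P_G(H, K) = ∏ t! / t ^ t` over the double cosets; the value `12/625` forces one `t = 2`, one
`t = 5` and otherwise `t = 1`. So `K` has on the `k + 7` cosets of `H` exactly `k` fixed points, an orbit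
of length 2 and one of length 5. If `k > 0` then `K` is a point stabilizer, the fixed points of a point
stabilizer form a block of size `k`, and the complement of its orbit of length 5 is a block of size
`k + 2`; so `k` divides 7 and `k + 2` divides 5, which is impossible. If `k = 0` and `{a, b}` is the orbit
of length 2 then the stabilizers of `a` and `b` coincide, and `{a, b}` is a block in a set of 7 points.
-/

set_option autoImplicit false

namespace Pool.Agent.Q180.TP.TwoPlusFive

open Pool.Agent.Q180.TP (P phi)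

/-- The block diagonal matrix `T = diag(T₁, …, T_s)`, where `T_i` is the `t_i × t_i` matrix with all
entries `1/t_i`. -/
def T {s : ℕ} (t : Fin s → ℕ) : Matrix (Σ i, Fin (t i)) (Σ i, Fin (t i)) ℚ :=
  fun x y => if x.1 = y.1 then 1 / (t x.1 : ℚ) else 0

lemma per_T {s : ℕ} (t : Fin s → ℕ) : (T t).permanent = ∏ i, phi (t i) := by
  have hcard : ∀ d, Fintype.card {a : Σ i, Fin (t i) // a.1 = d} = t d := fun d =>
    (Fintype.card_congr (Equiv.sigmaSubtype d)).trans (Fintype.card_fin _)
  have h := Pool.Agent.Q180.TP.sum_perm (fun a : Σ i, Fin (t i) => a.1)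
    (fun a : Σ i, Fin (t i) => a.1) t hcard hcard (fun i => 1 / (t i : ℚ))
  rw [Matrix.permanent]
  calc ∑ σ : Equiv.Perm (Σ i, Fin (t i)), ∏ a, T t (σ a) a
      = ∑ σ : (Σ i, Fin (t i)) ≃ (Σ i, Fin (t i)),
          ∏ a, (if a.1 = (σ a).1 then 1 / (t a.1 : ℚ) else 0) := by
        apply Finset.sum_congr rfl
        intro σ _
        apply Finset.prod_congr rfl
        intro a _
        unfold T
        by_cases h' : a.1 = (σ a).1
        · rw [if_pos h', if_pos h'.symm, h']
        · rw [if_neg h', if_neg (Ne.symm h')]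
    _ = _ := h
    _ = _ := Finset.prod_congr rfl fun d _ => Pool.Agent.Q180.TP.phi_eq _

/-- The statement of Q1. -/
def Q1 : Prop := ∀ (s : ℕ) (t : Fin s → ℕ), 1 ≤ s → (∀ i, 1 ≤ t i) →
  ∃ (G : Type) (_ : Group G) (_ : Finite G) (H K : Subgroup G),
    Nat.card H = Nat.card K ∧ (T t).permanent = P H K

/-- The statement of Q2. -/
def Q2 : Prop := ∀ (s : ℕ) (t : Fin s → ℕ), 1 ≤ s → (∀ i, 1 ≤ t i) → (∃ i, t i = 1) →
  ∃ (G : Type) (_ : Group G) (_ : Finite G) (H : Subgroup G), (T t).permanent = P H H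

theorem result :
    ¬ Q1 ∧ ¬ Q2 ∧
    (T ![2, 5]).permanent = 12 / 625 ∧ (T ![1, 2, 5]).permanent = 12 / 625 ∧
    ∀ (G : Type*) [Group G] [Finite G] (H K : Subgroup G), Nat.card H = Nat.card K →
      P H K ≠ 12 / 625 := by
  have h25 : (T ![2, 5]).permanent = 12 / 625 := by
    rw [per_T, Fin.prod_univ_two]
    simp only [Matrix.cons_val_zero, Matrix.cons_val_one]
    rw [Pool.Agent.Q180.TP.phi_two, Pool.Agent.Q180.TP.phi_five]
    norm_num
  have h125 : (T ![1, 2, 5]).permanent = 12 / 625 := by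
    rw [per_T, Fin.prod_univ_three]
    change phi 1 * phi 2 * phi 5 = 12 / 625
    rw [Pool.Agent.Q180.TP.phi_one, Pool.Agent.Q180.TP.phi_two, Pool.Agent.Q180.TP.phi_five]
    norm_num
  refine ⟨?_, ?_, h25, h125, ?_⟩
  · intro h
    obtain ⟨G, _, _, H, K, hHK, hP⟩ := h 2 ![2, 5] (by norm_num) (by
      intro i; fin_cases i <;> simp)
    rw [h25] at hP
    exact Pool.Agent.Q180.TP.P_ne hHK hP.symm
  · intro h
    obtain ⟨G, _, _, H, hP⟩ := h 3 ![1, 2, 5] (by norm_num) (by
      intro i; fin_cases i <;> simp) ⟨0, rfl⟩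
    rw [h125] at hP
    exact Pool.Agent.Q180.TP.P_ne rfl hP.symm
  · intro G _ _ H K hHK
    exact Pool.Agent.Q180.TP.P_ne hHK

end Pool.Agent.Q180.TP.TwoPlusFive
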